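import Mathlib
import Pool.Agent.H866R4.VD.Stmts

set_option autoImplicit false

/-! Task F of the project H866-VD: the generic graph. -/

namespace Pool.Agent.H866R4.VD

namespace Family632

theorem Q_equiv {V W : Type} [Fintype V] [Fintype W] (e : V ≃ W) (A : V → V → ℝ) (z : W → ℝ) :
    Q (fun x y : W => A (e.symm x) (e.symm y)) z = Q A (fun v => z (e v)) := by
  unfold Q
  rw [← Equiv.sum_comp e]
  refine Finset.sum_congr rfl (fun x _ => ?_)
  rw [← Equiv.sum_comp e]
  refine Finset.sum_congr rfl (fun y _ => ?_)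
  simp

theorem cert_comap {V W : Type} [Fintype V] [Fintype W] (e : V ≃ W) (G : SimpleGraph V) (κ : ℝ)
    (h : Cert G κ) : Cert (G.comap e.symm) κ := by
  obtain ⟨A, hs, h0, hl, w, hw⟩ := h
  refine ⟨fun x y => A (e.symm x) (e.symm y), fun x y => hs _ _, fun x y hxy => h0 _ _ ?_, ?_,
    fun x => w (e.symm x), ?_⟩
  · intro h
    exact hxy (by simpa using h)
  · intro z
    rw [Q_equiv e A z]
    have := hl (fun v => z (e v))
    rw [Equiv.sum_comp e (fun x => z x ^ 2)] at this
    exact this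
  · rw [Q_equiv e A]
    simp only [Equiv.symm_apply_apply]
    rw [Equiv.sum_comp e.symm (fun x => w x ^ 2)]
    exact hw

end Family632

open Family632

theorem taskFamily : TaskFamily := by
  intro hprod n κ hκ hF
  classical
  have key : ∀ L : Finset (SimpleGraph (Fin n)), (∀ F ∈ L, Cert F (κ : ℝ)) →
      ∃ (V : Type) (_ : Fintype V) (H : SimpleGraph V), Cert H (κ : ℝ) ∧
        ∀ F ∈ L, Nonempty (H →g F) := by
    intro L
    induction L using Finset.induction_on with
    | empty =>
      intro _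
      rcases hF ⊥ with h | h
      · exact ⟨Fin n, inferInstance, ⊥, h, by simp⟩
      · exact ⟨Fin n, inferInstance, ⊥ᶜ, h, by simp⟩
    | insert F0 L hnot ih =>
      intro hL
      obtain ⟨V, iV, H, hH, hhom⟩ := ih (fun F hF => hL F (Finset.mem_insert_of_mem hF))
      refine ⟨V × Fin n, inferInstance, catProd H F0,
        hprod V (Fin n) H F0 κ (by exact_mod_cast hκ) hH (hL F0 (Finset.mem_insert_self _ _)), ?_⟩
      intro F hFm
      rw [Finset.mem_insert] at hFm
      rcases hFm with rfl | hFm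
      · exact ⟨⟨Prod.snd, fun {a b} h => h.2⟩⟩
      · obtain ⟨f⟩ := hhom F hFm
        exact ⟨⟨fun q => f q.1, fun {a b} h => f.map_rel h.1⟩⟩
  obtain ⟨V, iV, H, hH, hhom⟩ := key (Finset.univ.filter (fun F => Cert F (κ : ℝ)))
    (fun F hF => (Finset.mem_filter.mp hF).2)
  refine ⟨Fintype.card V, H.comap (Fintype.equivFin V).symm, cert_comap _ H κ hH, ?_⟩
  intro F hFc
  obtain ⟨f⟩ := hhom F (Finset.mem_filter.mpr ⟨Finset.mem_univ _, hFc⟩)
  exact ⟨⟨fun x => f ((Fintype.equivFin V).symm x), fun {a b} h => f.map_rel (by simpa using h)⟩⟩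

end Pool.Agent.H866R4.VD
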